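import Pool.Agent.Helper2.HG.BSTG
import Pool.Agent.Helper75.HG.ROOT

/-!
# Project HG, packet BST2: the refined functional equation for `f + w l`
-/

set_option autoImplicit false

namespace Pool.Agent.Helper2.HG.BST2

open MvPolynomial Pool.Agent.Helper74.HG Pool.Agent.Helper58.HG.BST

variable {σ : Type}

/-- (1): the equation for `N = -1`. -/
theorem root {f : MvPolynomial σ ℂ} (hf : f ≠ 0) {b : Polynomial ℂ}
    {P : ℂ → Module.End ℂ (MvPolynomial σ ℂ)} (hP : P ∈ DS σ)
    (hfe : ∀ N : ℕ, P (N : ℂ) (f ^ (N + 1)) = C (b.eval (N : ℂ)) * f ^ N) :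
    C (b.eval (-1)) = f * P (-1) 1 := by
  obtain ⟨m, g, hg⟩ := Pool.Agent.Helper75.HG.ROOT.gd_op (f := f) hP (fun M => f ^ M)
    ⟨0, 1, fun M => by simp⟩
  have h1 : ∀ N : ℕ, C (b.eval (N : ℂ)) * f ^ m =
      f * g.eval (((N + 1 : ℕ)) : MvPolynomial σ ℂ) := by
    intro N
    have h2 := hg (N + 1)
    have e : ((N + 1 : ℕ) : ℂ) - 1 = N := by push_cast; ring
    simp only [e] at h2
    rw [hfe N] at h2
    have h3 : (C (b.eval (N : ℂ)) * f ^ m - f * g.eval (((N + 1 : ℕ)) : MvPolynomial σ ℂ)) *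
        f ^ N = 0 := by
      rw [pow_succ f N] at h2
      linear_combination h2
    rcases mul_eq_zero.1 h3 with h4 | h4
    · exact sub_eq_zero.1 h4
    · exact absurd h4 (pow_ne_zero N hf)
  set G : Polynomial (MvPolynomial σ ℂ) :=
    ((b.comp (Polynomial.X - 1)).map (C : ℂ →+* MvPolynomial σ ℂ)) * Polynomial.C (f ^ m) -
      Polynomial.C f * g with hG
  have hev : ∀ M : ℕ, G.eval (M : MvPolynomial σ ℂ) =
      C (b.eval ((M : ℂ) - 1)) * (f ^ m) - f * g.eval (M : MvPolynomial σ ℂ) := by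
    intro M
    rw [hG, Polynomial.eval_sub, Polynomial.eval_mul, Polynomial.eval_mul, Polynomial.eval_C,
      Polynomial.eval_C]
    congr 2
    have e : (M : MvPolynomial σ ℂ) = (C : ℂ →+* MvPolynomial σ ℂ) (M : ℂ) := by
      rw [map_natCast]
    rw [e, Polynomial.eval_map_apply]
    simp
  have hG0 : G = 0 := by
    refine Polynomial.eq_zero_of_infinite_isRoot G ?_
    refine Set.Infinite.mono (s := Set.range fun N : ℕ => (((N + 1 : ℕ)) : MvPolynomial σ ℂ)) ?_ ?_
    · rintro _ ⟨N, rfl⟩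
      rw [Set.mem_setOf_eq, Polynomial.IsRoot.def, hev (N + 1)]
      have e : ((N + 1 : ℕ) : ℂ) - 1 = N := by push_cast; ring
      rw [e]
      linear_combination h1 N
    · refine Set.infinite_range_of_injective fun a b hab => ?_
      have := Nat.cast_injective (R := MvPolynomial σ ℂ) hab
      omega
  have h5 := hev 0
  rw [hG0, Polynomial.eval_zero] at h5
  have h6 := hg 0
  simp only [pow_zero, mul_one] at h6
  have e : ((0 : ℕ) : ℂ) - 1 = -1 := by simp
  rw [e] at h5 h6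
  have h7 : (C (b.eval (-1)) - f * P (-1) 1) * f ^ m = 0 := by
    linear_combination -h5 - f * h6
  rcases mul_eq_zero.1 h7 with h9 | h9
  · exact sub_eq_zero.1 h9
  · exact absurd h9 (pow_ne_zero m hf)

/-- `P = (s+1) Q + ∑ R_i ∂_i + r`. -/
def Dec [Fintype σ] (P : ℂ → Module.End ℂ (MvPolynomial σ ℂ)) : Prop :=
  ∃ Q ∈ DS σ, ∃ R : σ → ℂ → Module.End ℂ (MvPolynomial σ ℂ), (∀ i, R i ∈ DS σ) ∧
    ∃ r : MvPolynomial σ ℂ, P = (ss + 1) * Q + ∑ i, R i * dd i + mm r

theorem mm_add (p q : MvPolynomial σ ℂ) : mm (p + q) = mm p + mm q := by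
  funext s
  apply LinearMap.ext
  intro g
  simp [mm, add_mul]

theorem mm_mul (p q : MvPolynomial σ ℂ) : mm (p * q) = mm p * mm q := by
  funext s
  apply LinearMap.ext
  intro g
  simp [mm, mul_assoc]

theorem mm_one : mm (1 : MvPolynomial σ ℂ) = 1 := by
  funext s
  apply LinearMap.ext
  intro g
  simp [mm]

theorem mm_zero : mm (0 : MvPolynomial σ ℂ) = 0 := by
  funext s
  apply LinearMap.ext
  intro g
  simp [mm]

theorem mm_neg (p : MvPolynomial σ ℂ) : mm (-p) = -mm p := by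
  funext s
  apply LinearMap.ext
  intro g
  simp [mm]

theorem ss_comm (P : ℂ → Module.End ℂ (MvPolynomial σ ℂ)) : P * (ss + 1) = (ss + 1) * P := by
  funext s
  change P s * (s • (1 : Module.End ℂ (MvPolynomial σ ℂ)) + 1) =
    (s • (1 : Module.End ℂ (MvPolynomial σ ℂ)) + 1) * P s
  rw [mul_add, add_mul, mul_smul_comm, smul_mul_assoc, mul_one, one_mul]

theorem dec_mm [Fintype σ] (r : MvPolynomial σ ℂ) : Dec (mm r) :=
  ⟨0, Subalgebra.zero_mem _, 0, fun _ => Subalgebra.zero_mem _, r, by simp⟩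

theorem dec_add [Fintype σ] {P P' : ℂ → Module.End ℂ (MvPolynomial σ ℂ)} (h : Dec P)
    (h' : Dec P') : Dec (P + P') := by
  obtain ⟨Q, hQ, R, hR, r, rfl⟩ := h
  obtain ⟨Q', hQ', R', hR', r', rfl⟩ := h'
  refine ⟨Q + Q', Subalgebra.add_mem _ hQ hQ', R + R',
    fun i => Subalgebra.add_mem _ (hR i) (hR' i), r + r', ?_⟩
  rw [mm_add, mul_add]
  simp only [Pi.add_apply, add_mul, Finset.sum_add_distrib]
  abel

/-- (2) of the proof. -/
theorem dec [Fintype σ] {P : ℂ → Module.End ℂ (MvPolynomial σ ℂ)} (hP : P ∈ DS σ) :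
    ∀ g : MvPolynomial σ ℂ, Dec (P * mm g) := by
  classical
  unfold DS at hP
  induction hP using Algebra.adjoin_induction with
  | mem x hx =>
    intro g
    rcases hx with (⟨i, rfl⟩ | ⟨i, rfl⟩) | rfl
    · change Dec (mm (X i) * mm g)
      rw [← mm_mul]
      exact dec_mm _
    · change Dec (dd i * mm g)
      refine ⟨0, Subalgebra.zero_mem _, Pi.single i (mm g), fun j => ?_, pderiv i g, ?_⟩
      · by_cases h : j = i
        · subst h
          rw [Pi.single_eq_same]
          exact mm_mem _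
        · rw [Pi.single_eq_of_ne h]
          exact Subalgebra.zero_mem _
      · rw [Finset.sum_eq_single i (fun j _ h => by rw [Pi.single_eq_of_ne h, zero_mul])
          (fun h => absurd (Finset.mem_univ i) h), Pi.single_eq_same, mul_zero, zero_add]
        funext s
        apply LinearMap.ext
        intro u
        change pderiv i (g * u) = g * pderiv i u + pderiv i g * u
        rw [pderiv_mul]
        ring
    · refine ⟨mm g, mm_mem _, 0, fun _ => Subalgebra.zero_mem _, -g, ?_⟩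
      rw [mm_neg]
      change ss * mm g = _
      simp only [Pi.zero_apply, zero_mul, Finset.sum_const_zero, add_zero, add_mul, one_mul]
      abel
  | algebraMap r =>
    intro g
    have : algebraMap ℂ (ℂ → Module.End ℂ (MvPolynomial σ ℂ)) r * mm g = mm (C r * g) := by
      funext s
      apply LinearMap.ext
      intro u
      change r • (g * u) = C r * g * u
      rw [MvPolynomial.smul_eq_C_mul, mul_assoc]
    rw [this]
    exact dec_mm _
  | add x y _ _ hx hy =>
    intro g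
    rw [add_mul]
    exact dec_add (hx g) (hy g)
  | mul x y hx' _ hx hy =>
    intro g
    obtain ⟨Q, hQ, R, hR, r, h⟩ := hy g
    have h2 := hx r
    have e : x * y * mm g = ((ss + 1) * (x * Q) + ∑ i, (x * R i) * dd i + mm 0) + x * mm r := by
      rw [mul_assoc, h, mm_zero, add_zero, mul_add, mul_add, ← mul_assoc, ss_comm, mul_assoc,
        Finset.mul_sum]
      simp only [mul_assoc]
    rw [e]
    exact dec_add ⟨x * Q, Subalgebra.mul_mem _ hx' hQ, fun i => x * R i,
      fun i => Subalgebra.mul_mem _ hx' (hR i), 0, rfl⟩ h2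

theorem di_FF (f : MvPolynomial σ ℂ) (i : σ) (N : ℕ) :
    pderiv (some (some i)) (FF f ^ (N + 1)) = ((N : ℂ) + 1) • (io (pderiv i f) * FF f ^ N) := by
  have h : pderiv (some (some i)) (FF f) = io (pderiv i f) := by
    unfold FF
    rw [map_add, pderiv_mul, pderiv_X_of_ne (by simp), pderiv_X_of_ne (by simp)]
    have h3 : pderiv (some (some i)) (io f) = io (pderiv i f) := by
      unfold io
      exact pderiv_rename inj2 i f
    rw [h3]
    ring
  rw [Derivation.leibniz_pow, h]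
  simp only [Nat.add_sub_cancel, smul_eq_mul, nsmul_eq_mul, Nat.cast_add, Nat.cast_one,
    MvPolynomial.smul_eq_C_mul, map_add, map_natCast, map_one]
  ring

/-- `P'(N) (ι u F^N) = ∑_j (N choose j) ι (P(N-j) (u f^(N-j))) (w l)^j`. -/
theorem lift_FF (f u : MvPolynomial σ ℂ) {P : ℂ → Module.End ℂ (MvPolynomial σ ℂ)}
    {P' : ℂ → Module.End ℂ (MvPolynomial (Option (Option σ)) ℂ)}
    (hl : ∀ (s : ℂ) (j i : ℕ) (g : MvPolynomial σ ℂ), P' s (mn g j i) = mn (P (s - j) g) j i)
    (N : ℕ) : P' (N : ℂ) (io u * FF f ^ N) = ∑ j ∈ Finset.range (N + 1),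
      (N.choose j : ℂ) • mn (P (((N - j : ℕ) : ℕ) : ℂ) (u * f ^ (N - j))) j j := by
  rw [FF_pow, Finset.mul_sum, map_sum]
  apply Finset.sum_congr rfl
  intro j hj
  rw [Finset.mem_range] at hj
  have e5 : io u * ((N.choose j : ℂ) • mn (f ^ (N - j)) j j) =
      (N.choose j : ℂ) • mn (u * f ^ (N - j)) j j := by
    rw [mul_smul_comm]
    congr 1
    unfold mn
    rw [map_mul, map_pow]
    ring
  rw [e5, map_smul, hl, show (N : ℂ) - (j : ℂ) = ((N - j : ℕ) : ℂ) by
    rw [Nat.cast_sub (by omega)]]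

theorem mn_add (p q : MvPolynomial σ ℂ) (j i : ℕ) : mn (p + q) j i = mn p j i + mn q j i := by
  unfold mn
  rw [map_add]
  ring

theorem mn_sum {ι : Type} (s : Finset ι) (p : ι → MvPolynomial σ ℂ) (j i : ℕ) :
    mn (∑ k ∈ s, p k) j i = ∑ k ∈ s, mn (p k) j i := by
  unfold mn
  rw [map_sum, Finset.sum_mul, Finset.sum_mul]

/-- **BST2.** -/
theorem t : Pool.Agent.Helper74.HG.BST2 := by
  intro σ _ f b hf hb
  obtain ⟨P, hP, hN⟩ := hb
  have h1 := root hf hP hN
  have h2 : P (-1) 1 = 0 := by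
    have e : ((Polynomial.X + 1) * b).eval (-1 : ℂ) = 0 := by simp
    rw [e, map_zero] at h1
    exact (mul_eq_zero.1 h1.symm).resolve_left hf
  obtain ⟨Q, hQ, R, hR, r, hd⟩ := dec hP 1
  rw [mm_one, mul_one] at hd
  have hr : r = 0 := by
    have e : P (-1) 1 = ((-1 : ℂ) • Q (-1) 1 + Q (-1) 1) +
        (∑ i, R i * dd i : ℂ → Module.End ℂ (MvPolynomial σ ℂ)) (-1) 1 + r * 1 := by
      rw [hd]
      rfl
    have e2 : (∑ i, R i * dd i : ℂ → Module.End ℂ (MvPolynomial σ ℂ)) (-1) 1 = 0 := by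
      rw [Finset.sum_apply, LinearMap.sum_apply]
      apply Finset.sum_eq_zero
      intro i _
      change R i (-1) (pderiv i 1) = 0
      rw [Derivation.map_one_eq_zero, map_zero]
    rw [h2, e2] at e
    simpa using e.symm
  rw [hr, mm_zero, add_zero] at hd
  have h3 : ∀ N : ℕ, Q (N : ℂ) (f * f ^ N) + ∑ i, R i (N : ℂ) (pderiv i f * f ^ N) =
      C (b.eval (N : ℂ)) * f ^ N := by
    intro N
    have e := hN N
    rw [hd] at e
    have e1 : ((ss + 1) * Q + ∑ i, R i * dd i : ℂ → Module.End ℂ (MvPolynomial σ ℂ)) (N : ℂ)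
        (f ^ (N + 1)) = ((N : ℂ) • Q (N : ℂ) (f ^ (N + 1)) + Q (N : ℂ) (f ^ (N + 1))) +
        (∑ i, R i * dd i : ℂ → Module.End ℂ (MvPolynomial σ ℂ)) (N : ℂ) (f ^ (N + 1)) := rfl
    have e2 : (∑ i, R i * dd i : ℂ → Module.End ℂ (MvPolynomial σ ℂ)) (N : ℂ) (f ^ (N + 1)) =
        ((N : ℂ) + 1) • ∑ i, R i (N : ℂ) (pderiv i f * f ^ N) := by
      rw [Finset.sum_apply, LinearMap.sum_apply, Finset.smul_sum]
      apply Finset.sum_congr rfl
      intro i _
      change R i (N : ℂ) (pderiv i (f ^ (N + 1))) = _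
      rw [← map_smul]
      congr 1
      rw [Derivation.leibniz_pow]
      simp only [Nat.add_sub_cancel, smul_eq_mul, nsmul_eq_mul, Nat.cast_add, Nat.cast_one,
        MvPolynomial.smul_eq_C_mul, map_add, map_natCast, map_one]
      ring
    rw [e1, e2] at e
    have e3 : ((N : ℂ) + 1) • (Q (N : ℂ) (f * f ^ N) + ∑ i, R i (N : ℂ) (pderiv i f * f ^ N)) =
        ((N : ℂ) + 1) • (C (b.eval (N : ℂ)) * f ^ N) := by
      rw [← pow_succ', smul_add, add_smul, one_smul, e]
      simp only [Polynomial.eval_mul, Polynomial.eval_add, Polynomial.eval_X, Polynomial.eval_one,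
        MvPolynomial.smul_eq_C_mul, map_add, map_mul, map_natCast, map_one]
      ring
    have hne : ((N : ℂ) + 1) ≠ 0 := by exact_mod_cast Nat.succ_ne_zero N
    exact smul_right_injective _ hne e3
  obtain ⟨Q', hQ', hlQ⟩ := lift hQ
  choose R' hR' hlR using fun i => lift (hR i)
  obtain ⟨-, G, hG, h4⟩ := exG f b
  have h5 : ∀ N : ℕ, Q' (N : ℂ) (io f * FF f ^ N) +
      ∑ i, R' i (N : ℂ) (io (pderiv i f) * FF f ^ N) = TT f b N := by
    intro N
    rw [lift_FF f f hlQ, Finset.sum_congr rfl (fun i _ => lift_FF f (pderiv i f) (hlR i) N),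
      Finset.sum_comm, ← Finset.sum_add_distrib]
    unfold TT
    apply Finset.sum_congr rfl
    intro j hj
    rw [Finset.mem_range] at hj
    rw [← Finset.smul_sum, ← smul_add, ← mn_sum, ← mn_add, h3 (N - j), mul_smul]
    congr 1
    rw [show (N : ℂ) - (j : ℂ) = ((N - j : ℕ) : ℂ) by rw [Nat.cast_sub (by omega)]]
    unfold mn
    rw [map_mul]
    have e6 : io (C (b.eval ((N - j : ℕ) : ℂ)) : MvPolynomial σ ℂ) =
        C (b.eval ((N - j : ℕ) : ℂ)) := by
      unfold io
      rw [rename_C]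
    rw [e6, MvPolynomial.smul_eq_C_mul]
    ring
  refine ⟨Q' * (ss + 1 - mm l * dd (some none)) + ∑ i, R' i * dd (some (some i)) - G, ?_,
    fun N => ?_⟩
  · exact Subalgebra.sub_mem _ (Subalgebra.add_mem _ (Subalgebra.mul_mem _ hQ'
      (Subalgebra.sub_mem _ (Subalgebra.add_mem _ ss_mem (Subalgebra.one_mem _))
      (Subalgebra.mul_mem _ (mm_mem _) (dd_mem _))))
      (Subalgebra.sum_mem _ fun i _ => Subalgebra.mul_mem _ (hR' i) (dd_mem _))) hG
  · have hF : stabC f = FF f := rfl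
    rw [hF]
    have e1 : (Q' * (ss + 1 - mm l * dd (some none)) + ∑ i, R' i * dd (some (some i)) - G :
        ℂ → Module.End ℂ (MvPolynomial (Option (Option σ)) ℂ)) (N : ℂ) (FF f ^ (N + 1)) =
        Q' (N : ℂ) ((N : ℂ) • FF f ^ (N + 1) + FF f ^ (N + 1) -
          l * pderiv (some none) (FF f ^ (N + 1))) +
        (∑ i, R' i * dd (some (some i)) :
          ℂ → Module.End ℂ (MvPolynomial (Option (Option σ)) ℂ)) (N : ℂ) (FF f ^ (N + 1)) -
        G (N : ℂ) (FF f ^ (N + 1)) := rfl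
    have e2 : (∑ i, R' i * dd (some (some i)) :
        ℂ → Module.End ℂ (MvPolynomial (Option (Option σ)) ℂ)) (N : ℂ) (FF f ^ (N + 1)) =
        ((N : ℂ) + 1) • ∑ i, R' i (N : ℂ) (io (pderiv i f) * FF f ^ N) := by
      rw [Finset.sum_apply, LinearMap.sum_apply, Finset.smul_sum]
      apply Finset.sum_congr rfl
      intro i _
      change R' i (N : ℂ) (pderiv (some (some i)) (FF f ^ (N + 1))) = _
      rw [di_FF, map_smul]
    rw [e1, e2, Pool.Agent.Helper2.HG.BSTG.e2, map_smul, ← smul_add, h5, h4]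
    simp only [Polynomial.eval_mul, Polynomial.eval_add, Polynomial.eval_X, Polynomial.eval_one,
      Polynomial.eval_comp, MvPolynomial.smul_eq_C_mul, map_add, map_mul, map_natCast, map_one]
    ring

end Pool.Agent.Helper2.HG.BST2
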