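import Pool.Agent.Helper74.HG.GoalsG
import Pool.Agent.Helper58.HG.BST

/-!
# Project HG, packet BSTG: the functional equation for `f + w l`, global version
-/

set_option autoImplicit false

namespace Pool.Agent.Helper2.HG.BSTG

open MvPolynomial Pool.Agent.Helper74.HG Pool.Agent.Helper58.HG.BST

variable {σ : Type}

/-- `(N+1) ι f F^N = (N + 1 - l ∂_l) F^(N+1)`. -/
theorem e2 (f : MvPolynomial σ ℂ) (N : ℕ) : (N : ℂ) • FF f ^ (N + 1) + FF f ^ (N + 1) -
    l * pderiv (some none) (FF f ^ (N + 1)) = ((N : ℂ) + 1) • (io f * FF f ^ N) := by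
  rw [dl_FF]
  have e3 : io f = FF f - w * l := by
    unfold FF
    ring
  rw [e3]
  simp only [MvPolynomial.smul_eq_C_mul, map_add, map_natCast, map_one]
  ring

/-- **BSTG.** -/
theorem t : Pool.Agent.Helper74.HG.BSTG := by
  intro σ _ f b hb
  obtain ⟨P, hP, hN⟩ := hb
  obtain ⟨P', hP', hl⟩ := lift hP
  obtain ⟨-, G, hG, h2⟩ := exG f b
  refine ⟨P' * (ss + 1 - mm l * dd (some none)) - G, ?_, fun N => ?_⟩
  · exact Subalgebra.sub_mem _ (Subalgebra.mul_mem _ hP' (Subalgebra.sub_mem _
      (Subalgebra.add_mem _ ss_mem (Subalgebra.one_mem _))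
      (Subalgebra.mul_mem _ (mm_mem _) (dd_mem _)))) hG
  · have hF : stabC f = FF f := rfl
    rw [hF]
    have e1 : (P' * (ss + 1 - mm l * dd (some none)) - G :
        ℂ → Module.End ℂ (MvPolynomial (Option (Option σ)) ℂ)) (N : ℂ) (FF f ^ (N + 1)) =
        P' (N : ℂ) ((N : ℂ) • FF f ^ (N + 1) + FF f ^ (N + 1) -
          l * pderiv (some none) (FF f ^ (N + 1))) - G (N : ℂ) (FF f ^ (N + 1)) := rfl
    have e4 : P' (N : ℂ) (io f * FF f ^ N) = TT f b N := by
      rw [FF_pow, Finset.mul_sum, map_sum]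
      unfold TT
      apply Finset.sum_congr rfl
      intro j hj
      rw [Finset.mem_range] at hj
      have e5 : io f * ((N.choose j : ℂ) • mn (f ^ (N - j)) j j) =
          (N.choose j : ℂ) • mn (f ^ (N - j + 1)) j j := by
        rw [mul_smul_comm]
        congr 1
        unfold mn
        rw [map_pow, map_pow]
        ring
      rw [e5, map_smul, hl, show (N : ℂ) - (j : ℂ) = ((N - j : ℕ) : ℂ) by
        rw [Nat.cast_sub (by omega)], hN (N - j)]
      unfold mn
      simp only [MvPolynomial.smul_eq_C_mul, map_mul, map_pow, map_natCast]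
      have e6 : io (C (b.eval ((N - j : ℕ) : ℂ)) : MvPolynomial σ ℂ) =
          C (b.eval ((N - j : ℕ) : ℂ)) := by
        unfold io
        rw [rename_C]
      rw [e6]
      ring
    rw [e1, e2, map_smul, e4, h2]
    simp only [Polynomial.eval_mul, Polynomial.eval_add, Polynomial.eval_X, Polynomial.eval_one,
      Polynomial.eval_comp, MvPolynomial.smul_eq_C_mul, map_add, map_mul, map_natCast, map_one]
    ring

end Pool.Agent.Helper2.HG.BSTG
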