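import Pool.Agent.Helper74.HG.Goals

namespace Pool.Agent.Helper2.HG.TRA

open MvPolynomial Pool.Agent.Helper74.HG

theorem cc {σ τ : Type} {φ : MvPolynomial σ ℤ ≃ₐ[ℤ] MvPolynomial τ ℤ} (h : Pres φ)
    (p : MvPolynomial σ ℤ) : constantCoeff (φ p) = constantCoeff p := by
  have key : (constantCoeff (R := ℤ) (σ := τ)).comp
      ((φ : MvPolynomial σ ℤ →ₐ[ℤ] MvPolynomial τ ℤ) : MvPolynomial σ ℤ →+* MvPolynomial τ ℤ) =
      constantCoeff := by
    apply ringHom_ext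
    · intro r
      simp
    · intro i
      simpa using h i
  exact congrArg (fun g => g p) key

/-- The extension of a homomorphism by the identity on the new variables. -/
noncomputable def exh {σ τ : Type} (φ : MvPolynomial σ ℤ →ₐ[ℤ] MvPolynomial τ ℤ) (κ : Type) :
    MvPolynomial (σ ⊕ κ) ℤ →ₐ[ℤ] MvPolynomial (τ ⊕ κ) ℤ :=
  aeval (Sum.elim (fun i => rename Sum.inl (φ (X i))) (fun j => X (Sum.inr j)))

theorem exh_inl {σ τ : Type} (φ : MvPolynomial σ ℤ →ₐ[ℤ] MvPolynomial τ ℤ) (κ : Type)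
    (p : MvPolynomial σ ℤ) : exh φ κ (rename Sum.inl p) = rename Sum.inl (φ p) := by
  have key : (exh φ κ).comp (rename Sum.inl) = (rename Sum.inl).comp φ := by
    apply algHom_ext
    intro i
    simp [exh]
  exact congrArg (fun g => g p) key

theorem exh_inr {σ τ : Type} (φ : MvPolynomial σ ℤ →ₐ[ℤ] MvPolynomial τ ℤ) (κ : Type)
    (j : κ) : exh φ κ (X (Sum.inr j)) = X (Sum.inr j) := by
  simp [exh]

theorem exh_inlX {σ τ : Type} (φ : MvPolynomial σ ℤ →ₐ[ℤ] MvPolynomial τ ℤ) (κ : Type)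
    (i : σ) : exh φ κ (X (Sum.inl i)) = rename Sum.inl (φ (X i)) := by
  simp [exh]

/-- The extension of an isomorphism by the identity on the new variables. -/
noncomputable def exe {σ τ : Type} (φ : MvPolynomial σ ℤ ≃ₐ[ℤ] MvPolynomial τ ℤ) (κ : Type) :
    MvPolynomial (σ ⊕ κ) ℤ ≃ₐ[ℤ] MvPolynomial (τ ⊕ κ) ℤ :=
  AlgEquiv.ofAlgHom (exh (φ : MvPolynomial σ ℤ →ₐ[ℤ] MvPolynomial τ ℤ) κ)
    (exh (φ.symm : MvPolynomial τ ℤ →ₐ[ℤ] MvPolynomial σ ℤ) κ)
    (by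
      apply algHom_ext
      rintro (i | j)
      · simp [exh_inlX, exh_inl]
      · simp [exh_inr])
    (by
      apply algHom_ext
      rintro (i | j)
      · simp [exh_inlX, exh_inl]
      · simp [exh_inr])

theorem exe_apply {σ τ : Type} (φ : MvPolynomial σ ℤ ≃ₐ[ℤ] MvPolynomial τ ℤ) (κ : Type)
    (p : MvPolynomial (σ ⊕ κ) ℤ) :
    exe φ κ p = exh (φ : MvPolynomial σ ℤ →ₐ[ℤ] MvPolynomial τ ℤ) κ p := rfl

theorem exe_pres {σ τ : Type} {φ : MvPolynomial σ ℤ ≃ₐ[ℤ] MvPolynomial τ ℤ} (h : Pres φ)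
    (κ : Type) : Pres (exe φ κ) := by
  rintro (i | j)
  · rw [exe_apply, exh_inlX]
    have := h i
    simpa [constantCoeff_rename] using this
  · rw [exe_apply, exh_inr]
    simp

/-- `σ ⊕ (Fin (k+k') ⊕ Fin (k+k')) ≃ (σ ⊕ (Fin k ⊕ Fin k)) ⊕ (Fin k' ⊕ Fin k')`. -/
def reidx (σ : Type) (k k' : ℕ) : σ ⊕ (Fin (k + k') ⊕ Fin (k + k')) ≃
    (σ ⊕ (Fin k ⊕ Fin k)) ⊕ (Fin k' ⊕ Fin k') :=
  ((Equiv.refl σ).sumCongr
    ((finSumFinEquiv.symm.sumCongr finSumFinEquiv.symm).trans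
      (Equiv.sumSumSumComm (Fin k) (Fin k') (Fin k) (Fin k')))).trans
    (Equiv.sumAssoc σ (Fin k ⊕ Fin k) (Fin k' ⊕ Fin k')).symm

theorem t0 : Pool.Agent.Helper74.HG.ISO := by
  intro σ τ φ hφ f
  refine ⟨0, (renameEquiv ℤ (Equiv.sumEmpty σ (Fin 0 ⊕ Fin 0))).trans φ, ?_, ?_⟩
  · rintro (i | i)
    · have := hφ i
      simpa using this
    · exact isEmptyElim i
  · have h1 : (renameEquiv ℤ (Equiv.sumEmpty σ (Fin 0 ⊕ Fin 0))) (stabS (Fin 0) f) = f := by
      unfold stabS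
      rw [Finset.univ_eq_empty, Finset.sum_empty, add_zero, renameEquiv_apply, rename_rename]
      have : (⇑(Equiv.sumEmpty σ (Fin 0 ⊕ Fin 0)) ∘ Sum.inl) = id := by
        funext i; simp
      rw [this, rename_id_apply]
    rw [AlgEquiv.trans_apply, h1]

theorem t : Pool.Agent.Helper74.HG.TRA := by
  rintro σ τ υ f g h ⟨k, φ, hφ, rfl⟩ ⟨k', ψ, hψ, rfl⟩
  refine ⟨k + k', ((renameEquiv ℤ (reidx σ k k')).trans (exe φ (Fin k' ⊕ Fin k'))).trans ψ, ?_, ?_⟩
  · intro i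
    rw [AlgEquiv.trans_apply, cc hψ, AlgEquiv.trans_apply, cc (exe_pres hφ _)]
    simp
  · have h1 : (renameEquiv ℤ (reidx σ k k')) (stabS (Fin (k + k')) f) =
        stabS (Fin k') (stabS (Fin k) f) := by
      unfold stabS
      rw [renameEquiv_apply, map_add, map_sum, rename_rename, ← finSumFinEquiv.sum_comp,
        Fintype.sum_sum_type, map_add, map_sum, rename_rename, ← add_assoc]
      congr 1
      · congr 1
        refine Finset.sum_congr rfl fun j _ => ?_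
        simp [reidx]
      · refine Finset.sum_congr rfl fun j _ => ?_
        simp [reidx]
    rw [AlgEquiv.trans_apply, AlgEquiv.trans_apply, h1]
    congr 1
    rw [exe_apply]
    unfold stabS
    rw [map_add, exh_inl, map_sum]
    congr 1
    refine Finset.sum_congr rfl fun j _ => ?_
    rw [map_mul, exh_inr, exh_inr]

end Pool.Agent.Helper2.HG.TRA
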